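import Pool.Agent.H73.GWQ.Stmts

/-!
# Row NEA of project GWQ
-/

set_option autoImplicit false

namespace GWQ

variable {G V : Type*} [Group G] (D : QM G V)

theorem NEA (h1 : H4QStmt D) : NEAStmt D := by
  intro u p q a e hp hq hpq hqp
  have h := h1 1 u p q
  have c1 : D.d u q = D.d q u := D.comm _ _
  have c2 : D.d u p = D.d p u := D.comm _ _
  unfold QM.nm at hp hq hpq hqp
  rcases le_total (D.d 1 p + D.d u q) (D.d 1 q + D.d u p) with h2 | h2
  · rw [max_eq_right h2] at h
    omega
  · rw [max_eq_left h2] at h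
    omega

end GWQ
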